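import Pool.Agent.X319.OM.Count
import Pool.Agent.X98.KZ.Fin

set_option autoImplicit false

/-!
# Algebraic families: bounds for the orders of the coefficients of the p-curvature
-/

namespace Pool.Agent.X319.OM

open PowerSeries Pool.Agent.X98.KZ

/-- Finitely many algebraic power series over a domain: a common denominator and a finite module. -/
lemma exists_module {R : Type*} [CommRing R] [IsDomain R] {J : Type*} [Finite J] (e : J → R⟦X⟧)
    (he : ∀ j, IsAlgebraic (Polynomial R) (e j)) :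
    ∃ (D : ℕ) (F : Fin D → R⟦X⟧) (H : Polynomial R), H ≠ 0 ∧
      (∃ q : Fin D → Polynomial R, (1 : R⟦X⟧) = ∑ b, (q b : R⟦X⟧) * F b) ∧
      (∀ a, ∃ q : Fin D → Polynomial R, (H : R⟦X⟧) * F a = ∑ b, (q b : R⟦X⟧) * F b) ∧
      (∀ a, ∃ q : Fin D → Polynomial R, (H : R⟦X⟧) * X * F a = ∑ b, (q b : R⟦X⟧) * F b) ∧
      ∀ j a, ∃ q : Fin D → Polynomial R, (H : R⟦X⟧) * e j * F a = ∑ b, (q b : R⟦X⟧) * F b := by
  classical
  have := Fintype.ofFinite J
  have hsm : ∀ (q : Polynomial R) (f : R⟦X⟧), q • f = (q : R⟦X⟧) * f := by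
    intro q f
    rw [Algebra.smul_def]
    congr 1
  choose y hy0 hy using fun j => (he j).exists_integral_multiple
  let S : Subalgebra (Polynomial R) R⟦X⟧ :=
    Algebra.adjoin (Polynomial R) (Set.range fun j => y j • e j)
  have hS : Module.Finite (Polynomial R) S := by
    exact Algebra.finite_adjoin_of_finite_of_isIntegral (Set.finite_range _)
      (by rintro _ ⟨j, rfl⟩; exact hy j)
  obtain ⟨D, F, hF⟩ := Module.Finite.exists_fin (R := Polynomial R) (M := S)
  have hrep : ∀ x : R⟦X⟧, x ∈ S → ∃ q : Fin D → Polynomial R,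
      x = ∑ b, (q b : R⟦X⟧) * (F b : R⟦X⟧) := by
    intro x hx
    have h1 : (⟨x, hx⟩ : S) ∈ Submodule.span (Polynomial R) (Set.range F) := by
      rw [hF]; exact Submodule.mem_top
    rw [Submodule.mem_span_range_iff_exists_fun] at h1
    obtain ⟨q, hq⟩ := h1
    refine ⟨q, ?_⟩
    have h2 := congrArg Subtype.val hq
    simp only [AddSubmonoidClass.coe_finsetSum, SetLike.val_smul] at h2
    rw [← h2]
    exact Finset.sum_congr rfl fun b _ => hsm _ _
  refine ⟨D, fun b => (F b : R⟦X⟧), ∏ j, y j, Finset.prod_ne_zero_iff.mpr fun j _ => hy0 j,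
    hrep 1 S.one_mem, fun a => hrep _ ?_, fun a => hrep _ ?_, fun j a => hrep _ ?_⟩
  · rw [← hsm]
    exact S.smul_mem (F a).2 _
  · have h1 : ((∏ j, y j : Polynomial R) : R⟦X⟧) * X * (F a : R⟦X⟧) =
        (Polynomial.X * ∏ j, y j : Polynomial R) • (F a : R⟦X⟧) := by
      rw [hsm, Polynomial.coe_mul, Polynomial.coe_X]
      ring
    rw [h1]
    exact S.smul_mem (F a).2 _
  · have h1 : ((∏ j, y j : Polynomial R) : R⟦X⟧) * e j * (F a : R⟦X⟧) =
        (∏ i ∈ Finset.univ.erase j, y i) • ((y j • e j) * (F a : R⟦X⟧)) := by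
      rw [← Finset.mul_prod_erase Finset.univ y (Finset.mem_univ j), hsm, hsm, Polynomial.coe_mul]
      ring
    rw [h1]
    exact S.smul_mem (S.mul_mem (Algebra.subset_adjoin ⟨j, rfl⟩) (F a).2) _

section filt

variable {k : Type*} [Field k] {U : Submodule k k⟦X⟧}

/-- The coefficients are in `U ^ N`. -/
def CU (U : Submodule k k⟦X⟧) (N : ℕ) (f : Polynomial k⟦X⟧) : Prop := ∀ l, f.coeff l ∈ U ^ N

lemma CU.mul {N M : ℕ} {f g : Polynomial k⟦X⟧} (hf : CU U N f) (hg : CU U M g) :
    CU U (N + M) (f * g) := by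
  intro l
  rw [Polynomial.coeff_mul, pow_add]
  exact Submodule.sum_mem _ fun ij _ => Submodule.mul_mem_mul (hf _) (hg _)

lemma CU.mono (h1 : (1 : k⟦X⟧) ∈ U) {N M : ℕ} (h : N ≤ M) {f : Polynomial k⟦X⟧} (hf : CU U N f) :
    CU U M f := fun l => pow_mono_of_one h1 h (hf l)

lemma CU.sum {N : ℕ} {J : Type*} (s : Finset J) {f : J → Polynomial k⟦X⟧}
    (hf : ∀ j ∈ s, CU U N (f j)) : CU U N (∑ j ∈ s, f j) := by
  intro l
  rw [Polynomial.finsetSum_coeff]
  exact Submodule.sum_mem _ fun j hj => hf j hj l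

lemma CU.sub {N : ℕ} {f g : Polynomial k⟦X⟧} (hf : CU U N f) (hg : CU U N g) :
    CU U N (f - g) := by
  intro l
  rw [Polynomial.coeff_sub]
  exact sub_mem (hf l) (hg l)

lemma CU.deriv {N : ℕ} {f : Polynomial k⟦X⟧} (hf : CU U N f) :
    CU U N (Polynomial.derivative f) := by
  intro l
  rw [Polynomial.coeff_derivative, ← Nat.cast_succ, ← nsmul_eq_mul']
  exact nsmul_mem (hf _) _

lemma CU.natCast_mul {N : ℕ} {f : Polynomial k⟦X⟧} (hf : CU U N f) (j : ℕ) :
    CU U N ((j : Polynomial k⟦X⟧) * f) := by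
  intro l
  rw [← nsmul_eq_mul, Polynomial.coeff_smul]
  exact nsmul_mem (hf _) _

lemma CU.C {N : ℕ} {x : k⟦X⟧} (hx : x ∈ U ^ N) : CU U N (Polynomial.C x) := by
  intro l
  rw [Polynomial.coeff_C]
  split_ifs
  · exact hx
  · exact zero_mem _

lemma CU.one : CU U 0 (1 : Polynomial k⟦X⟧) := by
  have h : (1 : Polynomial k⟦X⟧) = Polynomial.C 1 := by rw [map_one]
  rw [h]
  exact CU.C (by rw [pow_zero]; exact Submodule.one_le.mp le_rfl)

lemma CU.X_sub_C (h1 : (1 : k⟦X⟧) ∈ U) {x : k⟦X⟧} (hx : x ∈ U) :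
    CU U 1 (Polynomial.X - Polynomial.C x) := by
  refine CU.sub (fun l => ?_) (CU.C (by rwa [pow_one]))
  rw [Polynomial.coeff_X, pow_one]
  split_ifs
  · exact h1
  · exact zero_mem _

lemma CU.prod {ι : Type*} (s : Finset ι) {f : ι → Polynomial k⟦X⟧}
    (hf : ∀ i ∈ s, CU U 1 (f i)) : CU U s.card (∏ i ∈ s, f i) := by
  classical
  induction s using Finset.induction_on with
  | empty => rw [Finset.prod_empty, Finset.card_empty]; exact CU.one
  | insert i s hi ih =>
    rw [Finset.prod_insert hi, Finset.card_insert_of_notMem hi, add_comm]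
    exact (hf i (Finset.mem_insert_self _ _)).mul
      (ih fun j hj => hf j (Finset.mem_insert_of_mem hj))

/-- The degree of the coefficients of the iterates is at most `m j`. -/
lemma curv_CU {ι : Type*} [Fintype ι] [DecidableEq ι] {r : Type*} [Fintype r] [DecidableEq r]
    (h1 : (1 : k⟦X⟧) ∈ U) (A : ι → Matrix r r k⟦X⟧) (z : ι → k⟦X⟧) (hz : ∀ i, z i ∈ U)
    (hA : ∀ i a b, A i a b ∈ U) (j : ℕ) (a b : r) :
    CU U (Fintype.card ι * j) (curv A z j a b) := by
  have hT : CU U (Fintype.card ι) (∏ l, (Polynomial.X - Polynomial.C (z l))) :=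
    CU.prod _ fun i _ => CU.X_sub_C h1 (hz i)
  have hTc : ∀ i a b, CU U (Fintype.card ι) (Tc z i * Polynomial.C (A i a b)) := by
    intro i a b
    have h2 : CU U (Finset.univ.erase i).card (Tc z i) :=
      CU.prod _ fun i _ => CU.X_sub_C h1 (hz i)
    rw [Finset.card_erase_of_mem (Finset.mem_univ i), Finset.card_univ] at h2
    have h3 := h2.mul (CU.C (N := 1) (by rw [pow_one]; exact hA i a b))
    have h4 : 0 < Fintype.card ι := Fintype.card_pos_iff.mpr ⟨i⟩
    rwa [Nat.sub_add_cancel h4] at h3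
  induction j generalizing a b with
  | zero =>
    rw [curv, mul_zero, Matrix.one_apply]
    split_ifs
    · exact CU.one
    · intro l
      rw [Polynomial.coeff_zero]
      exact zero_mem _
  | succ j ih =>
    have e1 : Fintype.card ι * (j + 1) = Fintype.card ι + Fintype.card ι * j := by ring
    rw [curv, Matrix.sub_apply, Matrix.sub_apply, Matrix.smul_apply, Matrix.smul_apply,
      smul_eq_mul, smul_eq_mul, Matrix.map_apply, Matrix.mul_apply, e1]
    refine CU.sub (CU.sub (hT.mul (ih a b).deriv) ?_) (CU.sum _ fun c _ => ?_)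
    · rw [mul_assoc]
      exact (hT.deriv.mul (ih a b)).natCast_mul j
    · refine CU.mul ?_ (ih c b)
      rw [Matrix.sum_apply]
      refine CU.sum _ fun i _ => ?_
      rw [Matrix.smul_apply, Matrix.map_apply, smul_eq_mul]
      exact hTc i a c

end filt

/-- **Multiplicity estimate.** The coefficients of the cleared p-curvature of an algebraic family
have small order or are zero, uniformly in the prime ideal. -/
theorem mult_estimate {R : Type*} [CommRing R] [IsDomain R] {ι : Type*} [Fintype ι]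
    [DecidableEq ι] {r : Type*} [Fintype r] [DecidableEq r] (A : ι → Matrix r r R⟦X⟧)
    (z : ι → R⟦X⟧) (hz : ∀ i, ∃ a b, z i = PowerSeries.C a + PowerSeries.C b * X)
    (halg : ∀ i a b, IsAlgebraic (Polynomial R) (A i a b)) :
    ∃ (α : ℕ) (g : R), g ≠ 0 ∧ ∀ (k : Type*) [Field k] (φ : R →+* k), φ g ≠ 0 →
      ∀ j l a b, (∀ i < α * j + 1, coeff i ((curv (fun i => (A i).map (PowerSeries.map φ))
        (fun i => PowerSeries.map φ (z i)) j a b).coeff l) = 0) →
        (curv (fun i => (A i).map (PowerSeries.map φ))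
          (fun i => PowerSeries.map φ (z i)) j a b).coeff l = 0 := by
  classical
  obtain ⟨D, F, H, hH, ⟨q1, hq1⟩, hqc, hqX, hqe⟩ := exists_module
    (fun x : ι × r × r => A x.1 x.2.1 x.2.2) (fun x => halg _ _ _)
  choose qc hqc using hqc
  choose qX hqX using hqX
  choose qe hqe using hqe
  -- the bound of all degrees
  obtain ⟨h, hh⟩ : ∃ h : ℕ, h = (∑ b, (q1 b).natDegree) + (∑ a, ∑ b, (qc a b).natDegree) +
    (∑ a, ∑ b, (qX a b).natDegree) + ∑ x, ∑ a, ∑ b, (qe x a b).natDegree := ⟨_, rfl⟩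
  have hd1 : ∀ b, (q1 b).natDegree ≤ h := fun b => by
    have := Finset.single_le_sum (f := fun b => (q1 b).natDegree) (fun _ _ => Nat.zero_le _)
      (Finset.mem_univ b)
    omega
  have hd2 : ∀ a b, (qc a b).natDegree ≤ h := fun a b => by
    have h1 := Finset.single_le_sum (f := fun b => (qc a b).natDegree) (fun _ _ => Nat.zero_le _)
      (Finset.mem_univ b)
    have h2 := Finset.single_le_sum (f := fun a => ∑ b, (qc a b).natDegree)
      (fun _ _ => Nat.zero_le _) (Finset.mem_univ a)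
    omega
  have hd3 : ∀ a b, (qX a b).natDegree ≤ h := fun a b => by
    have h1 := Finset.single_le_sum (f := fun b => (qX a b).natDegree) (fun _ _ => Nat.zero_le _)
      (Finset.mem_univ b)
    have h2 := Finset.single_le_sum (f := fun a => ∑ b, (qX a b).natDegree)
      (fun _ _ => Nat.zero_le _) (Finset.mem_univ a)
    omega
  have hd4 : ∀ x a b, (qe x a b).natDegree ≤ h := fun x a b => by
    have h1 := Finset.single_le_sum (f := fun b => (qe x a b).natDegree)
      (fun _ _ => Nat.zero_le _) (Finset.mem_univ b)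
    have h2 := Finset.single_le_sum (f := fun a => ∑ b, (qe x a b).natDegree)
      (fun _ _ => Nat.zero_le _) (Finset.mem_univ a)
    have h3 := Finset.single_le_sum (f := fun x => ∑ a, ∑ b, (qe x a b).natDegree)
      (fun _ _ => Nat.zero_le _) (Finset.mem_univ x)
    omega
  refine ⟨h * D * Fintype.card ι, H.leadingCoeff, Polynomial.leadingCoeff_ne_zero.mpr hH, ?_⟩
  intro k _ φ hφ j l a b hord
  let Φ : R⟦X⟧ →+* k⟦X⟧ := PowerSeries.map φ
  have hΦ : ∀ q : Polynomial R, Φ (q : R⟦X⟧) = ((q.map φ : Polynomial k) : k⟦X⟧) :=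
    fun q => Polynomial.polynomial_map_coe.symm
  let F' : Fin D → k⟦X⟧ := fun b => Φ (F b)
  have hF' : ∀ q : Fin D → Polynomial R, (∀ b, (q b).natDegree ≤ h) →
      Φ (∑ b, (q b : R⟦X⟧) * F b) ∈ Tsp F' h := by
    intro q hq
    rw [map_sum]
    refine Submodule.sum_mem _ fun b _ => ?_
    rw [map_mul, hΦ]
    have h1 : F' b ∈ Tsp F' 0 := by simpa using Tsp_mem F' (i := 0) le_rfl b
    have h2 := Tsp_poly F' (Polynomial.map φ (q b)) (Polynomial.natDegree_map_le.trans (hq b)) h1
    rw [add_zero] at h2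
    exact h2
  let U : Submodule k k⟦X⟧ := Submodule.span k
    (insert 1 (insert X (Set.range fun x : ι × r × r => Φ (A x.1 x.2.1 x.2.2))))
  have hU1 : (1 : k⟦X⟧) ∈ U := Submodule.subset_span (Set.mem_insert _ _)
  have hUX : (X : k⟦X⟧) ∈ U :=
    Submodule.subset_span (Set.mem_insert_of_mem _ (Set.mem_insert _ _))
  have hUe : ∀ i a b, Φ (A i a b) ∈ U := fun i a b =>
    Submodule.subset_span (Set.mem_insert_of_mem _ (Set.mem_insert_of_mem _ ⟨(i, a, b), rfl⟩))
  have hUF : ∀ u ∈ U, ∀ a, Φ (H : R⟦X⟧) * u * F' a ∈ Tsp F' h := by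
    intro u hu a
    induction hu using Submodule.span_induction with
    | mem x hx =>
      rcases hx with rfl | rfl | ⟨x, rfl⟩
      · have h1 := hF' (qc a) (hd2 a)
        rw [← hqc, map_mul] at h1
        rwa [mul_one]
      · have h1 := hF' (qX a) (hd3 a)
        rw [← hqX, map_mul, map_mul] at h1
        have h2 : Φ X = X := PowerSeries.map_X φ
        rwa [h2] at h1
      · have h1 := hF' (qe x a) (hd4 x a)
        rw [← hqe, map_mul, map_mul] at h1
        exact h1
    | zero => rw [mul_zero, zero_mul]; exact zero_mem _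
    | add x y _ _ hx hy => rw [mul_add, add_mul]; exact add_mem hx hy
    | smul c x _ hx =>
      rw [mul_smul_comm, smul_mul_assoc]
      exact Submodule.smul_mem _ _ hx
  have hH' : Φ (H : R⟦X⟧) ≠ 0 := by
    rw [hΦ, Ne, Polynomial.coe_eq_zero_iff]
    intro h0
    have h1 := congrArg (fun q : Polynomial k => q.coeff H.natDegree) h0
    simp only [Polynomial.coeff_map, Polynomial.coeff_zero] at h1
    exact hφ h1
  have hF1 : (1 : k⟦X⟧) ∈ Tsp F' h := by
    have h1 := hF' q1 hd1
    rwa [← hq1, map_one] at h1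
  have hdim := fun M => finrank_pow F' (Φ (H : R⟦X⟧)) hH' h hF1 U hUF M
  have hmem := curv_CU (U := U) hU1 (fun i => (A i).map (PowerSeries.map φ))
    (fun i => PowerSeries.map φ (z i)) (fun i => ?_) (fun i a b => hUe i a b) j a b l
  · refine order_le U hU1 hUX (h * D) ((h + 1) * D) (fun M => (hdim M).1) (fun M => (hdim M).2)
      hmem (o := h * D * Fintype.card ι * j + 1) hord ?_
    rw [← mul_assoc]
    exact Nat.lt_succ_self _
  · obtain ⟨x, y, hxy⟩ := hz i
    rw [hxy, map_add, map_mul, PowerSeries.map_C, PowerSeries.map_C, PowerSeries.map_X]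
    refine add_mem ?_ ?_
    · have h1 : (PowerSeries.C (φ x) : k⟦X⟧) = φ x • 1 := by
        rw [PowerSeries.smul_eq_C_mul, mul_one]
      rw [h1]
      exact U.smul_mem _ hU1
    · rw [← PowerSeries.smul_eq_C_mul]
      exact U.smul_mem _ hUX

end Pool.Agent.X319.OM
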