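import Mathlib

set_option autoImplicit false

/-!
# The order of an algebraic power series is bounded linearly in its degree
-/

namespace Pool.Agent.X319.OM

open PowerSeries

variable {k : Type*} [Field k]

lemma pow_mono_of_one {S : Type*} [CommRing S] [Algebra k S] {U : Submodule k S} (h1 : (1 : S) ∈ U)
    {a b : ℕ} (hab : a ≤ b) : U ^ a ≤ U ^ b := by
  induction b, hab using Nat.le_induction with
  | base => exact le_rfl
  | succ b _ ih =>
    refine ih.trans fun x hx => ?_
    rw [pow_succ]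
    simpa using Submodule.mul_mem_mul hx h1

/-- The span of the `X ^ i F a`, `i ≤ N`. -/
noncomputable def Tsp {D : ℕ} (F : Fin D → k⟦X⟧) (N : ℕ) : Submodule k k⟦X⟧ :=
  Submodule.span k (Set.range fun x : Fin (N + 1) × Fin D => X ^ (x.1 : ℕ) * F x.2)

lemma Tsp_mem {D : ℕ} (F : Fin D → k⟦X⟧) {N i : ℕ} (hi : i ≤ N) (a : Fin D) :
    X ^ i * F a ∈ Tsp F N :=
  Submodule.subset_span ⟨(⟨i, Nat.lt_succ_of_le hi⟩, a), rfl⟩

instance Tsp_fin {D : ℕ} (F : Fin D → k⟦X⟧) (N : ℕ) : Module.Finite k (Tsp F N) := by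
  rw [Tsp]
  exact Module.Finite.span_of_finite k (Set.finite_range _)

lemma Tsp_finrank {D : ℕ} (F : Fin D → k⟦X⟧) (N : ℕ) :
    Module.finrank k (Tsp F N) ≤ (N + 1) * D := by
  have h := finrank_range_le_card (R := k) (fun x : Fin (N + 1) × Fin D => X ^ (x.1 : ℕ) * F x.2)
  rw [Fintype.card_prod, Fintype.card_fin, Fintype.card_fin] at h
  exact h

lemma Tsp_mono {D : ℕ} (F : Fin D → k⟦X⟧) {N N' : ℕ} (h : N ≤ N') : Tsp F N ≤ Tsp F N' := by
  rw [Tsp, Submodule.span_le]
  rintro _ ⟨x, rfl⟩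
  exact Tsp_mem F (by have := x.1.2; omega) x.2

lemma Tsp_X {D : ℕ} (F : Fin D → k⟦X⟧) {N : ℕ} (i : ℕ) {y : k⟦X⟧} (hy : y ∈ Tsp F N) :
    X ^ i * y ∈ Tsp F (i + N) := by
  rw [Tsp] at hy
  induction hy using Submodule.span_induction with
  | mem x hx =>
    obtain ⟨x, rfl⟩ := hx
    simp only
    rw [← mul_assoc, ← pow_add]
    exact Tsp_mem F (by have := x.1.2; omega) x.2
  | zero => rw [mul_zero]; exact zero_mem _
  | add x y _ _ hx hy => rw [mul_add]; exact add_mem hx hy
  | smul c x _ hx => rw [mul_smul_comm]; exact Submodule.smul_mem _ _ hx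

lemma Tsp_poly {D : ℕ} (F : Fin D → k⟦X⟧) {N h : ℕ} (q : Polynomial k) (hq : q.natDegree ≤ h)
    {y : k⟦X⟧} (hy : y ∈ Tsp F N) : (q : k⟦X⟧) * y ∈ Tsp F (h + N) := by
  have h1 : (q : k⟦X⟧) = ∑ i ∈ Finset.range (h + 1), q.coeff i • (X : k⟦X⟧) ^ i := by
    conv_lhs => rw [q.as_sum_range' (h + 1) (by omega)]
    rw [← Polynomial.coeToPowerSeries.ringHom_apply, map_sum]
    refine Finset.sum_congr rfl fun i _ => ?_
    rw [← Polynomial.C_mul_X_pow_eq_monomial, map_mul, map_pow,
      Polynomial.coeToPowerSeries.ringHom_apply, Polynomial.coeToPowerSeries.ringHom_apply,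
      Polynomial.coe_C, Polynomial.coe_X, ← PowerSeries.smul_eq_C_mul]
  rw [h1, Finset.sum_mul]
  refine Submodule.sum_mem _ fun i hi => ?_
  rw [Finset.mem_range] at hi
  rw [smul_mul_assoc]
  exact Submodule.smul_mem _ _ (Tsp_mono F (by omega) (Tsp_X F i hy))

/-- `H ^ M U ^ M` is contained in `Tsp F (h M + h)`. -/
lemma pow_mul_mem {D : ℕ} (F : Fin D → k⟦X⟧) (H : k⟦X⟧) (h : ℕ) (hF : (1 : k⟦X⟧) ∈ Tsp F h)
    (U : Submodule k k⟦X⟧) (hU : ∀ u ∈ U, ∀ a, H * u * F a ∈ Tsp F h) (M : ℕ) :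
    ∀ y ∈ U ^ M, H ^ M * y ∈ Tsp F (h * M + h) := by
  induction M with
  | zero =>
    intro y hy
    rw [pow_zero, Submodule.mem_one] at hy
    obtain ⟨c, rfl⟩ := hy
    rw [pow_zero, one_mul, mul_zero, zero_add, Algebra.algebraMap_eq_smul_one]
    exact Submodule.smul_mem _ _ hF
  | succ M ih =>
    have key : ∀ u ∈ U, ∀ N, ∀ y ∈ Tsp F N, H * u * y ∈ Tsp F (N + h) := by
      intro u hu N y hy
      rw [Tsp] at hy
      induction hy using Submodule.span_induction with
      | mem x hx =>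
        obtain ⟨x, rfl⟩ := hx
        have h1 : H * u * (X ^ (x.1 : ℕ) * F x.2) = X ^ (x.1 : ℕ) * (H * u * F x.2) := by ring
        simp only
        rw [h1]
        exact Tsp_mono F (by have := x.1.2; omega) (Tsp_X F _ (hU u hu x.2))
      | zero => rw [mul_zero]; exact zero_mem _
      | add x y _ _ hx hy => rw [mul_add]; exact add_mem hx hy
      | smul c x _ hx => rw [mul_smul_comm]; exact Submodule.smul_mem _ _ hx
    intro y hy
    rw [pow_succ] at hy
    induction hy using Submodule.mul_induction_on' with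
    | mem_mul_mem y hy u hu =>
      have h1 : H ^ (M + 1) * (y * u) = H * u * (H ^ M * y) := by ring
      have h2 : h * (M + 1) + h = h * M + h + h := by ring
      rw [h1, h2]
      exact key u hu _ _ (ih y hy)
    | add x _ y _ hx hy => rw [mul_add (H ^ (M + 1))]; exact add_mem hx hy

/-- The dimension of `U ^ M`. -/
lemma finrank_pow {D : ℕ} (F : Fin D → k⟦X⟧) (H : k⟦X⟧) (hH : H ≠ 0) (h : ℕ)
    (hF : (1 : k⟦X⟧) ∈ Tsp F h) (U : Submodule k k⟦X⟧)
    (hU : ∀ u ∈ U, ∀ a, H * u * F a ∈ Tsp F h) (M : ℕ) :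
    Module.Finite k (U ^ M : Submodule k k⟦X⟧) ∧
    Module.finrank k (U ^ M : Submodule k k⟦X⟧) ≤ h * D * M + (h + 1) * D := by
  let f : (U ^ M : Submodule k k⟦X⟧) →ₗ[k] Tsp F (h * M + h) :=
    LinearMap.codRestrict _ ((LinearMap.mulLeft k (H ^ M)).comp (U ^ M).subtype)
      fun y => pow_mul_mem F H h hF U hU M y y.2
  have hf : Function.Injective f := by
    intro x y hxy
    have h1 : H ^ M * (x : k⟦X⟧) = H ^ M * (y : k⟦X⟧) := congrArg Subtype.val hxy
    exact Subtype.ext (mul_left_cancel₀ (pow_ne_zero _ hH) h1)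
  refine ⟨Module.Finite.of_injective f hf, ?_⟩
  have h1 := LinearMap.finrank_le_finrank_of_injective hf
  refine h1.trans ((Tsp_finrank F _).trans (le_of_eq ?_))
  ring

/-- The order of an element of `U ^ d` is at most `α d` if `dim U ^ M ≤ α M + β`. -/
theorem order_le (U : Submodule k k⟦X⟧) (h1 : (1 : k⟦X⟧) ∈ U) (hX : (X : k⟦X⟧) ∈ U) (α β : ℕ)
    (hfin : ∀ M, Module.Finite k (U ^ M : Submodule k k⟦X⟧))
    (hU : ∀ M, Module.finrank k (U ^ M : Submodule k k⟦X⟧) ≤ α * M + β) {d : ℕ} {f : k⟦X⟧}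
    (hf : f ∈ U ^ d) {o : ℕ} (ho : ∀ i < o, coeff i f = 0) (hoo : α * d < o) : f = 0 := by
  by_contra hf0
  have hXi : ∀ i M, i ≤ M → (X : k⟦X⟧) ^ i ∈ U ^ M := fun i M hi =>
    pow_mono_of_one h1 hi (Submodule.pow_mem_pow _ hX i)
  -- one step
  have step : ∀ M, o ≤ M → Module.finrank k (U ^ M : Submodule k k⟦X⟧) + o ≤
      Module.finrank k (U ^ (M + d) : Submodule k k⟦X⟧) := by
    intro M hM
    have hfin1 := hfin M
    have hfin2 := hfin (M + d)
    let g : ((U ^ M : Submodule k k⟦X⟧) × (Fin o → k)) →ₗ[k] k⟦X⟧ :=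
      LinearMap.coprod ((LinearMap.mulLeft k f).comp (U ^ M).subtype)
        (Fintype.linearCombination k (fun i : Fin o => (X : k⟦X⟧) ^ (i : ℕ)))
    have hg : ∀ x, g x ∈ U ^ (M + d) := by
      rintro ⟨y, c⟩
      simp only [g, LinearMap.coprod_apply, LinearMap.comp_apply, Submodule.subtype_apply,
        LinearMap.mulLeft_apply, Fintype.linearCombination_apply]
      refine add_mem ?_ (Submodule.sum_mem _ fun i _ => Submodule.smul_mem _ _ (hXi _ _ ?_))
      · rw [mul_comm, pow_add]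
        exact Submodule.mul_mem_mul y.2 hf
      · have := i.2
        omega
    let g' := LinearMap.codRestrict (U ^ (M + d)) g hg
    have hinj : Function.Injective g' := by
      rw [← LinearMap.ker_eq_bot, LinearMap.ker_eq_bot']
      rintro ⟨y, c⟩ h
      have h2 : f * (y : k⟦X⟧) + ∑ i : Fin o, c i • (X : k⟦X⟧) ^ (i : ℕ) = 0 := by
        have h3 := congrArg Subtype.val h
        simpa [g', g, LinearMap.codRestrict_apply, Fintype.linearCombination_apply] using h3
      have hc : ∀ j : Fin o, c j = 0 := by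
        intro j
        have h4 := congrArg (coeff (j : ℕ)) h2
        rw [map_add, coeff_mul, Finset.sum_eq_zero, zero_add, map_sum,
          Finset.sum_eq_single j] at h4
        · simpa [coeff_X_pow] using h4
        · intro i _ hij
          rw [PowerSeries.coeff_smul, coeff_X_pow, if_neg, smul_zero]
          exact fun h => hij (Fin.ext h.symm)
        · intro h5
          exact absurd (Finset.mem_univ _) h5
        · intro ij hij
          rw [Finset.HasAntidiagonal.mem_antidiagonal] at hij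
          rw [ho ij.1 (by have := j.2; omega), zero_mul]
      have hy : (y : k⟦X⟧) = 0 := by
        have h5 : ∑ i : Fin o, c i • (X : k⟦X⟧) ^ (i : ℕ) = 0 :=
          Finset.sum_eq_zero fun i _ => by rw [hc, zero_smul]
        rw [h5, add_zero] at h2
        exact (mul_eq_zero.mp h2).resolve_left hf0
      exact Prod.ext (Subtype.ext hy) (funext hc)
    have h6 := LinearMap.finrank_le_finrank_of_injective hinj
    rw [Module.finrank_prod, Module.finrank_fin_fun] at h6
    exact h6
  have iter : ∀ L, L * o ≤ Module.finrank k (U ^ (o + L * d) : Submodule k k⟦X⟧) := by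
    intro L
    induction L with
    | zero => simp
    | succ L ih =>
      have h2 := step (o + L * d) (Nat.le_add_right _ _)
      have h3 : o + (L + 1) * d = o + L * d + d := by ring
      rw [h3, Nat.succ_mul]
      omega
  have h2 := (iter (α * o + β + 1)).trans (hU _)
  have h3 := Nat.mul_le_mul_left (α * o + β + 1) (Nat.succ_le_of_lt hoo)
  have h4 : (α * o + β + 1) * (α * d).succ = α * ((α * o + β + 1) * d) + (α * o + β + 1) := by
    rw [Nat.succ_eq_add_one]; ring
  rw [h4] at h3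
  have h5 : α * (o + (α * o + β + 1) * d) = α * o + α * ((α * o + β + 1) * d) := by ring
  rw [h5] at h2
  omega

end Pool.Agent.X319.OM
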