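import Mathlib

set_option autoImplicit false

/-!
# Eisenstein's theorem over a domain

A power series over the fraction field of a domain `R` of characteristic zero which is algebraic
over the polynomials has its coefficients in `R[1/g]` for some `g ≠ 0`.
-/

namespace Pool.Agent.X319.OM

open PowerSeries

section ser

variable {K : Type*} [Field K]

/-- The power series with coefficients in a subring. -/
def Ser (O : Subring K) : Subring K⟦X⟧ where
  carrier := {f | ∀ n, coeff n f ∈ O}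
  mul_mem' := by
    intro f g hf hg n
    rw [coeff_mul]
    exact sum_mem fun ij _ => mul_mem (hf _) (hg _)
  one_mem' := by
    intro n
    rw [coeff_one]
    split_ifs
    · exact one_mem _
    · exact zero_mem _
  add_mem' := by
    intro f g hf hg n
    rw [map_add]
    exact add_mem (hf n) (hg n)
  zero_mem' := fun n => by rw [map_zero]; exact zero_mem _
  neg_mem' := by
    intro f hf n
    rw [map_neg]
    exact neg_mem (hf n)

lemma mem_Ser {O : Subring K} {f : K⟦X⟧} : f ∈ Ser O ↔ ∀ n, coeff n f ∈ O := Iff.rfl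

lemma Ser_mono {O O' : Subring K} (h : O ≤ O') : Ser O ≤ Ser O' := fun _ hf n => h (hf n)

lemma Ser_inv {O : Subring K} {u : K⟦X⟧} (hu : u ∈ Ser O) (h0 : (constantCoeff u)⁻¹ ∈ O) :
    u⁻¹ ∈ Ser O := by
  intro n
  induction n using Nat.strong_induction_on with
  | _ n ih =>
    rw [coeff_inv]
    split_ifs
    · exact h0
    · refine mul_mem (neg_mem h0) (sum_mem fun x hx => ?_)
      split_ifs with h
      · exact mul_mem (hu _) (ih _ h)
      · exact zero_mem _

lemma Ser_of_X_pow_mul {O : Subring K} {u : K⟦X⟧} (e : ℕ) (hu : X ^ e * u ∈ Ser O) : u ∈ Ser O := by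
  intro n
  have h := hu (n + e)
  rwa [coeff_X_pow_mul] at h

lemma contract {O : Subring K} {V β : K⟦X⟧} (Φ : Polynomial K⟦X⟧)
    (hβ : β ∈ Ser O) (hΦ : ∀ k, Φ.coeff k ∈ Ser O) (h : V = β + X * Φ.eval V) : V ∈ Ser O := by
  have key : ∀ k, ∀ i < k, coeff i V ∈ O := by
    intro k
    induction k with
    | zero => intro i hi; omega
    | succ k ih =>
      -- truncated multiplication
      have hmul : ∀ f g : K⟦X⟧, (∀ i < k, coeff i f ∈ O) → (∀ i < k, coeff i g ∈ O) →
          ∀ i < k, coeff i (f * g) ∈ O := by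
        intro f g hf hg i hi
        rw [coeff_mul]
        refine sum_mem fun ij hij => ?_
        rw [Finset.HasAntidiagonal.mem_antidiagonal] at hij
        exact mul_mem (hf _ (by omega)) (hg _ (by omega))
      have hpow : ∀ j, ∀ i < k, coeff i (V ^ j) ∈ O := by
        intro j
        induction j with
        | zero => intro i hi; rw [pow_zero]; exact (Ser O).one_mem i
        | succ j ihj => rw [pow_succ]; exact hmul _ _ ihj ih
      have hE : ∀ i < k, coeff i (Φ.eval V) ∈ O := by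
        intro i hi
        rw [Polynomial.eval_eq_sum_range, map_sum]
        exact sum_mem fun j _ => hmul _ _ (fun i _ => hΦ j i) (hpow j) i hi
      intro i hi
      rw [h, map_add]
      refine add_mem (hβ i) ?_
      cases i with
      | zero => rw [coeff_zero_X_mul]; exact zero_mem _
      | succ i => rw [coeff_succ_X_mul]; exact hE i (by omega)
  exact fun n => key (n + 1) n (Nat.lt_succ_self n)

end ser

section dom

variable (R : Type*) {K : Type*} [CommRing R] [IsDomain R] [Field K] [Algebra R K]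
  [IsFractionRing R K]

/-- The subring `R[1/g]` of `K`. -/
def Rg (g : R) : Subring K where
  carrier := {x | ∃ (N : ℕ) (y : R), algebraMap R K g ^ N * x = algebraMap R K y}
  mul_mem' := by
    rintro x y ⟨N, a, ha⟩ ⟨M, b, hb⟩
    exact ⟨N + M, a * b, by rw [map_mul, ← ha, ← hb]; ring⟩
  one_mem' := ⟨0, 1, by simp⟩
  add_mem' := by
    rintro x y ⟨N, a, ha⟩ ⟨M, b, hb⟩
    refine ⟨N + M, g ^ M * a + g ^ N * b, ?_⟩
    rw [map_add, map_mul, map_mul, ← ha, ← hb, map_pow, map_pow]
    ring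
  zero_mem' := ⟨0, 0, by simp⟩
  neg_mem' := by
    rintro x ⟨N, a, ha⟩
    exact ⟨N, -a, by rw [map_neg, ← ha]; ring⟩

variable {R}

lemma mem_Rg {g : R} {x : K} : x ∈ (Rg R g : Subring K) ↔
    ∃ (N : ℕ) (y : R), algebraMap R K g ^ N * x = algebraMap R K y := Iff.rfl

lemma Rg_mono_left (g h : R) : (Rg R g : Subring K) ≤ Rg R (g * h) := by
  rintro x ⟨N, y, hy⟩
  exact ⟨N, h ^ N * y, by rw [map_mul, map_mul, mul_pow, ← hy, map_pow]; ring⟩

lemma Rg_mono_right (g h : R) : (Rg R h : Subring K) ≤ Rg R (g * h) := by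
  rw [mul_comm]
  exact Rg_mono_left h g

lemma algebraMap_mem_Rg (g y : R) : algebraMap R K y ∈ (Rg R g : Subring K) := ⟨0, y, by simp⟩

lemma exists_mem_Rg (x : K) : ∃ g : R, g ≠ 0 ∧ x ∈ (Rg R g : Subring K) := by
  obtain ⟨a, b, hb, rfl⟩ := IsFractionRing.div_surjective (A := R) x
  have hb0 : b ≠ 0 := nonZeroDivisors.ne_zero hb
  refine ⟨b, hb0, 1, a, ?_⟩
  have : algebraMap R K b ≠ 0 := fun h => hb0 ((IsFractionRing.injective R K) (by rw [h, map_zero]))
  field_simp

lemma exists_inv_mem (x : K) : ∃ g : R, g ≠ 0 ∧ x ∈ (Rg R g : Subring K) ∧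
    x⁻¹ ∈ (Rg R g : Subring K) := by
  obtain ⟨g, hg, hx⟩ := exists_mem_Rg (R := R) x
  obtain ⟨h, hh, hx'⟩ := exists_mem_Rg (R := R) x⁻¹
  exact ⟨g * h, mul_ne_zero hg hh, Rg_mono_left g h hx, Rg_mono_right g h hx'⟩

variable (R K) in
/-- The series with coefficients in some `R[1/g]`. -/
def EisAlg : Subalgebra K K⟦X⟧ where
  carrier := {f | ∃ g : R, g ≠ 0 ∧ f ∈ Ser (Rg R g : Subring K)}
  mul_mem' := by
    rintro f f' ⟨g, hg, hf⟩ ⟨g', hg', hf'⟩
    exact ⟨g * g', mul_ne_zero hg hg', mul_mem (Ser_mono (Rg_mono_left g g') hf)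
      (Ser_mono (Rg_mono_right g g') hf')⟩
  add_mem' := by
    rintro f f' ⟨g, hg, hf⟩ ⟨g', hg', hf'⟩
    exact ⟨g * g', mul_ne_zero hg hg', add_mem (Ser_mono (Rg_mono_left g g') hf)
      (Ser_mono (Rg_mono_right g g') hf')⟩
  algebraMap_mem' := by
    intro x
    obtain ⟨g, hg, hx⟩ := exists_mem_Rg (R := R) x
    refine ⟨g, hg, fun n => ?_⟩
    rw [PowerSeries.algebraMap_apply, Algebra.algebraMap_self, RingHom.id_apply, coeff_C]
    split_ifs
    · exact hx
    · exact zero_mem _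

lemma mem_EisAlg {f : K⟦X⟧} : f ∈ EisAlg R K ↔ ∃ g : R, g ≠ 0 ∧ f ∈ Ser (Rg R g : Subring K) :=
  Iff.rfl

lemma EisAlg_X : (X : K⟦X⟧) ∈ EisAlg R K := by
  refine ⟨1, one_ne_zero, fun n => ?_⟩
  rw [coeff_X]
  split_ifs
  · exact one_mem _
  · exact zero_mem _

lemma EisAlg_poly (p : Polynomial K) : (p : K⟦X⟧) ∈ EisAlg R K := by
  have hp : Polynomial.aeval (X : K⟦X⟧) p = (p : K⟦X⟧) := by
    rw [Polynomial.aeval_def, Polynomial.eval₂_eq_sum_range]
    conv_rhs => rw [p.as_sum_range_C_mul_X_pow]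
    rw [← Polynomial.coeToPowerSeries.ringHom_apply, map_sum]
    refine Finset.sum_congr rfl fun i _ => ?_
    rw [map_mul, map_pow, Polynomial.coeToPowerSeries.ringHom_apply,
      Polynomial.coeToPowerSeries.ringHom_apply, Polynomial.coe_C, Polynomial.coe_X]
    rfl
  rw [← hp]
  have h1 : Polynomial.aeval (X : K⟦X⟧) p ∈ Algebra.adjoin K {(X : K⟦X⟧)} :=
    Polynomial.aeval_mem_adjoin_singleton K X
  exact (Algebra.adjoin_le (by simpa using EisAlg_X (R := R)) :
    Algebra.adjoin K {(X : K⟦X⟧)} ≤ EisAlg R K) h1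

lemma EisAlg_inv {u : K⟦X⟧} (hu : u ∈ EisAlg R K) : u⁻¹ ∈ EisAlg R K := by
  obtain ⟨g, hg, h⟩ := hu
  obtain ⟨g', hg', h1, h2⟩ := exists_inv_mem (R := R) (constantCoeff u)
  exact ⟨g * g', mul_ne_zero hg hg', Ser_inv (Ser_mono (Rg_mono_left g g') h)
    (Rg_mono_right g g' h2)⟩

lemma EisAlg_of_X_pow_mul {u : K⟦X⟧} (e : ℕ) (hu : X ^ e * u ∈ EisAlg R K) : u ∈ EisAlg R K := by
  obtain ⟨g, hg, h⟩ := hu
  exact ⟨g, hg, Ser_of_X_pow_mul e h⟩

/-- finitely many elements have a common denominator -/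
lemma EisAlg_finset {α : Type*} (s : Finset α) (f : α → K⟦X⟧) (hf : ∀ a ∈ s, f a ∈ EisAlg R K) :
    ∃ g : R, g ≠ 0 ∧ ∀ a ∈ s, f a ∈ Ser (Rg R g : Subring K) := by
  classical
  induction s using Finset.induction_on with
  | empty => exact ⟨1, one_ne_zero, fun a ha => absurd ha (Finset.notMem_empty a)⟩
  | insert a s _ ih =>
    obtain ⟨g, hg, h⟩ := ih fun b hb => hf b (Finset.mem_insert_of_mem hb)
    obtain ⟨g', hg', h'⟩ := hf a (Finset.mem_insert_self _ _)
    refine ⟨g * g', mul_ne_zero hg hg', fun b hb => ?_⟩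
    rcases Finset.mem_insert.mp hb with rfl | hb
    · exact Ser_mono (Rg_mono_right g g') h'
    · exact Ser_mono (Rg_mono_left g g') (h b hb)

end dom

end Pool.Agent.X319.OM
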