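import Pool.Agent.X319.OM.Eis

set_option autoImplicit false
set_option linter.unusedSectionVars false

/-!
# Eisenstein's theorem over a domain
-/

namespace Pool.Agent.X319.OM

open PowerSeries

/-- a nonzero polynomial killing `w` can be replaced by one with `w` as a simple root -/
lemma exists_simple {R A : Type*} [CommRing R] [IsDomain R] [CharZero R] [CommRing A] [Algebra R A]
    [FaithfulSMul R A] (w : A) : ∀ (d : ℕ) (p : Polynomial R), p.natDegree = d → p ≠ 0 →
    Polynomial.aeval w p = 0 →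
    ∃ q : Polynomial R, Polynomial.aeval w q = 0 ∧
      Polynomial.aeval w (Polynomial.derivative q) ≠ 0 := by
  intro d
  induction d using Nat.strong_induction_on with
  | _ d ih =>
    intro p hd hp h
    by_cases h' : Polynomial.aeval w (Polynomial.derivative p) = 0
    · have hd0 : p.natDegree ≠ 0 := by
        intro h0
        rw [Polynomial.eq_C_of_natDegree_eq_zero h0, Polynomial.aeval_C] at h
        apply hp
        rw [Polynomial.eq_C_of_natDegree_eq_zero h0]
        have : p.coeff 0 = 0 := FaithfulSMul.algebraMap_injective R A (by rw [h, map_zero])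
        rw [this, map_zero]
      have hp' : Polynomial.derivative p ≠ 0 := by
        intro h0
        exact hd0 (Polynomial.natDegree_eq_zero_of_derivative_eq_zero h0)
      exact ih _ (by rw [← hd]; exact Polynomial.natDegree_derivative_lt hd0) _ rfl hp' h'
    · exact ⟨p, h, h'⟩

variable {R K : Type*} [CommRing R] [IsDomain R] [Field K] [Algebra R K] [IsFractionRing R K]
  [CharZero K]

/-- Eisenstein's theorem: `EisAlg R K` is algebraically closed in `K⟦X⟧`. -/
theorem EisAlg_of_isAlgebraic {w : K⟦X⟧} (h : IsAlgebraic (EisAlg R K) w) : w ∈ EisAlg R K := by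
  classical
  obtain ⟨p, hp, hpw⟩ := h
  have : CharZero (EisAlg R K) :=
    charZero_of_injective_algebraMap (algebraMap K (EisAlg R K)).injective
  obtain ⟨G, hG, hG'⟩ := exists_simple w _ p rfl hp hpw
  set g' := Polynomial.aeval w (Polynomial.derivative G) with hg'
  set e := g'.order.toNat with he
  -- truncation
  let Ap : Polynomial K := trunc (e + 1) w
  have hAO : (Ap : K⟦X⟧) ∈ EisAlg R K := EisAlg_poly _
  let A : EisAlg R K := ⟨(Ap : K⟦X⟧), hAO⟩
  obtain ⟨V, hV⟩ : X ^ (e + 1) ∣ w - (Ap : K⟦X⟧) := by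
    rw [X_pow_dvd_iff]
    intro m hm
    rw [map_sub, Polynomial.coeff_coe, coeff_trunc, if_pos hm, sub_self]
  -- Taylor expansion
  set T := Polynomial.taylor A G with hT
  have hT0 : ∀ Y : K⟦X⟧, Polynomial.aeval (Y + (A : K⟦X⟧)) G = Polynomial.aeval Y T := by
    intro Y
    rw [hT, Polynomial.taylor_apply, Polynomial.aeval_comp]
    simp only [map_add, Polynomial.aeval_X, Polynomial.aeval_C]
    rfl
  have hw : w = X ^ (e + 1) * V + (A : K⟦X⟧) := by
    change w = X ^ (e + 1) * V + (Ap : K⟦X⟧)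
    rw [← hV]; ring
  have hrel : Polynomial.aeval (X ^ (e + 1) * V) T = 0 := by rw [← hT0, ← hw, hG]
  -- coefficient 1
  have hT1 : ∃ u : K⟦X⟧, constantCoeff u ≠ 0 ∧ ((T.coeff 1 : EisAlg R K) : K⟦X⟧) = X ^ e * u := by
    have e1 : ((T.coeff 1 : EisAlg R K) : K⟦X⟧) =
        Polynomial.aeval (A : K⟦X⟧) (Polynomial.derivative G) := by
      rw [hT, Polynomial.taylor_coeff_one]
      have : ∀ q : Polynomial (EisAlg R K), ((q.eval A : EisAlg R K) : K⟦X⟧) =
          Polynomial.aeval (A : K⟦X⟧) q := by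
        intro q
        have := Polynomial.aeval_algebraMap_apply K⟦X⟧ A q
        rw [Polynomial.coe_aeval_eq_eval] at this
        exact this.symm
      exact this _
    have e2 : X ^ (e + 1) ∣ g' - Polynomial.aeval (A : K⟦X⟧) (Polynomial.derivative G) := by
      have h1 : w - (A : K⟦X⟧) ∣ g' - Polynomial.aeval (A : K⟦X⟧) (Polynomial.derivative G) := by
        rw [hg']
        simp only [Polynomial.aeval_def, Polynomial.eval₂_eq_eval_map]
        exact Polynomial.sub_dvd_eval_sub _ _ _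
      exact (Dvd.intro V hV.symm).trans h1
    obtain ⟨t, ht⟩ := e2
    refine ⟨divXPowOrder g' - X * t, ?_, ?_⟩
    · rw [map_sub, map_mul, constantCoeff_X, zero_mul, sub_zero]
      simpa using constantCoeff_divXPowOrder_eq_zero_iff.not.mpr hG'
    · rw [e1]
      have h2 : g' = X ^ e * divXPowOrder g' := (g'.X_pow_order_mul_divXPowOrder).symm
      have h3 : Polynomial.aeval (A : K⟦X⟧) (Polynomial.derivative G) = g' - X ^ (e + 1) * t := by
        rw [← ht]; ring
      rw [h3]
      conv_lhs => rw [h2]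
      ring
  obtain ⟨u, hu, hTu⟩ := hT1
  have huO : u ∈ EisAlg R K := by
    apply EisAlg_of_X_pow_mul e
    rw [← hTu]; exact (T.coeff 1).2
  -- expand the relation
  have hexp : Polynomial.aeval (X ^ (e + 1) * V) T =
      ((T.coeff 0 : EisAlg R K) : K⟦X⟧) + X ^ (2 * e + 1) * (u * V +
        X * ∑ k ∈ Finset.range T.natDegree, ((T.coeff (k + 2) : EisAlg R K) : K⟦X⟧) *
          X ^ ((e + 1) * k) * V ^ (k + 2)) := by
    rw [Polynomial.aeval_def, Polynomial.eval₂_eq_sum_range' _ (n := T.natDegree + 2) (by omega),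
      Finset.sum_range_succ', Finset.sum_range_succ']
    have ea : ∀ x : EisAlg R K, algebraMap (EisAlg R K) K⟦X⟧ x = (x : K⟦X⟧) := fun _ => rfl
    simp only [ea, zero_add, pow_zero, mul_one, pow_one]
    rw [hTu, mul_add, Finset.mul_sum, Finset.mul_sum]
    have : ∀ k ∈ Finset.range T.natDegree, ((T.coeff (k + 1 + 1) : EisAlg R K) : K⟦X⟧) *
        (X ^ (e + 1) * V) ^ (k + 1 + 1) = X ^ (2 * e + 1) * (X *
          (((T.coeff (k + 2) : EisAlg R K) : K⟦X⟧) * X ^ ((e + 1) * k) * V ^ (k + 2))) := by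
      intro k _
      rw [mul_pow, ← pow_mul]
      ring
    rw [Finset.sum_congr rfl this]
    ring
  rw [hexp] at hrel
  -- the constant term is divisible
  obtain ⟨b, hb⟩ : X ^ (2 * e + 1) ∣ ((T.coeff 0 : EisAlg R K) : K⟦X⟧) :=
    ⟨-(u * V + X * ∑ k ∈ Finset.range T.natDegree, ((T.coeff (k + 2) : EisAlg R K) : K⟦X⟧) *
          X ^ ((e + 1) * k) * V ^ (k + 2)), by linear_combination hrel⟩
  have hbO : b ∈ EisAlg R K := by
    apply EisAlg_of_X_pow_mul (2 * e + 1)
    rw [← hb]; exact (T.coeff 0).2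
  have hrel2 : b + (u * V + X * ∑ k ∈ Finset.range T.natDegree,
      ((T.coeff (k + 2) : EisAlg R K) : K⟦X⟧) * X ^ ((e + 1) * k) * V ^ (k + 2)) = 0 := by
    have h5 : X ^ (2 * e + 1) * (b + (u * V + X * ∑ k ∈ Finset.range T.natDegree,
      ((T.coeff (k + 2) : EisAlg R K) : K⟦X⟧) * X ^ ((e + 1) * k) * V ^ (k + 2))) = 0 := by
      rw [mul_add, ← hb]; exact hrel
    exact (mul_eq_zero.1 h5).resolve_left (pow_ne_zero _ X_ne_zero)
  have huu : u * u⁻¹ = 1 := PowerSeries.mul_inv_cancel _ hu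
  let c : ℕ → K⟦X⟧ := fun k =>
    -(u⁻¹ * (((T.coeff (k + 2) : EisAlg R K) : K⟦X⟧) * X ^ ((e + 1) * k)))
  have hcO : ∀ k, c k ∈ EisAlg R K := fun k =>
    neg_mem (mul_mem (EisAlg_inv huO) (mul_mem (T.coeff (k + 2)).2 (pow_mem EisAlg_X _)))
  let Φ : Polynomial K⟦X⟧ := ∑ k ∈ Finset.range T.natDegree,
    Polynomial.C (c k) * Polynomial.X ^ (k + 2)
  have hVeq : V = -(u⁻¹ * b) + X * Φ.eval V := by
    have h6 : Φ.eval V = ∑ k ∈ Finset.range T.natDegree, c k * V ^ (k + 2) := by
      simp [Φ, Polynomial.eval_finset_sum]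
    have h7 : ∑ k ∈ Finset.range T.natDegree, c k * V ^ (k + 2) =
        -(u⁻¹ * ∑ k ∈ Finset.range T.natDegree,
      ((T.coeff (k + 2) : EisAlg R K) : K⟦X⟧) * X ^ ((e + 1) * k) * V ^ (k + 2)) := by
      rw [Finset.mul_sum, ← Finset.sum_neg_distrib]
      exact Finset.sum_congr rfl fun k _ => by simp only [c]; ring
    rw [h6, h7]
    linear_combination (u⁻¹) * hrel2 - V * huu
  have hVO : V ∈ EisAlg R K := by
    obtain ⟨g1, hg1, hall⟩ := EisAlg_finset (Finset.range T.natDegree) c fun k _ => hcO k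
    obtain ⟨g2, hg2, hβ⟩ : -(u⁻¹ * b) ∈ EisAlg R K := neg_mem (mul_mem (EisAlg_inv huO) hbO)
    refine ⟨g1 * g2, mul_ne_zero hg1 hg2,
      contract Φ (Ser_mono (Rg_mono_right g1 g2) hβ) (fun k => ?_) hVeq⟩
    simp only [Φ, Polynomial.finsetSum_coeff, Polynomial.coeff_C_mul, Polynomial.coeff_X_pow]
    refine sum_mem fun i hi => ?_
    split_ifs
    · rw [mul_one]; exact Ser_mono (Rg_mono_left g1 g2) (hall i hi)
    · rw [mul_zero]; exact zero_mem _
  rw [hw]
  exact add_mem (mul_mem (pow_mem EisAlg_X _) hVO) A.2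

/-- Eisenstein's theorem for finitely many series which are algebraic over `K[X]`. -/
theorem eisenstein {J : Type*} [Finite J] (f : J → K⟦X⟧)
    (hf : ∀ j, IsAlgebraic (Polynomial K) (f j)) :
    ∃ g : R, g ≠ 0 ∧ ∀ j, f j ∈ Ser (Rg R g : Subring K) := by
  classical
  have := Fintype.ofFinite J
  have h1 : ∀ j, f j ∈ EisAlg R K := by
    intro j
    apply EisAlg_of_isAlgebraic
    obtain ⟨p, hp, hpf⟩ := hf j
    let ι : Polynomial K →+* EisAlg R K :=
      (Polynomial.coeToPowerSeries.ringHom (R := K)).codRestrict (EisAlg R K).toSubring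
        fun q => EisAlg_poly q
    have hι : Function.Injective ι := fun x y hxy =>
      Polynomial.coe_injective K (congrArg Subtype.val hxy)
    refine ⟨p.map ι, (Polynomial.map_ne_zero_iff hι).mpr hp, ?_⟩
    rw [Polynomial.aeval_def, Polynomial.eval₂_map]
    rw [Polynomial.aeval_def] at hpf
    exact hpf
  obtain ⟨g, hg, h⟩ := EisAlg_finset (R := R) Finset.univ f fun j _ => h1 j
  exact ⟨g, hg, fun j => h j (Finset.mem_univ j)⟩

end Pool.Agent.X319.OM
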