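import Pool.Agent.X319.OM.Main
import Pool.Agent.X319.OM.Eis2

set_option autoImplicit false
set_option linter.unusedSectionVars false

/-!
# The final theorem
-/

namespace Pool.Agent.X319.OM

open PowerSeries Pool.Agent.X98.KZ Pool.Agent.X98.SL

section loc

variable (R : Type*) {K : Type*} [CommRing R] [IsDomain R] [Field K] [Algebra R K]
  [IsFractionRing R K]

/-- The inclusion of `R` in `R[1/g]`. -/
def incl (g : R) : R →+* (Rg R g : Subring K) :=
  (algebraMap R K).codRestrict (Rg R g) fun y => algebraMap_mem_Rg g y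

lemma incl_coe (g : R) (y : R) : ((incl R g y : (Rg R g : Subring K)) : K) = algebraMap R K y := rfl

lemma alg_ne {g : R} (hg : g ≠ 0) : algebraMap R K g ≠ 0 := fun h =>
  hg (IsFractionRing.injective R K (by rw [h, map_zero]))

lemma inv_mem_Rg {g : R} (hg : g ≠ 0) : (algebraMap R K g)⁻¹ ∈ (Rg R g : Subring K) :=
  ⟨1, 1, by rw [pow_one, map_one, mul_inv_cancel₀ (alg_ne R hg)]⟩

/-- A homomorphism extends to `R[1/g]`. -/
lemma exists_lift {k : Type*} [Field k] {g : R} (hg : g ≠ 0) (φ : R →+* k) (hφ : φ g ≠ 0) :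
    ∃ φ' : (Rg R g : Subring K) →+* k, ∀ y, φ' (incl R g y) = φ y := by
  let _ : Algebra R (Rg R g : Subring K) := (incl R g).toAlgebra
  have hloc : IsLocalization.Away g (Rg R g : Subring K) := by
    refine ⟨?_, ?_, ?_⟩
    · rintro ⟨_, n, rfl⟩
      simp only [map_pow]
      refine IsUnit.pow _ (IsUnit.of_mul_eq_one ⟨_, inv_mem_Rg R hg⟩ ?_)
      exact Subtype.ext (mul_inv_cancel₀ (alg_ne R hg))
    · rintro ⟨x, N, y, hy⟩
      refine ⟨(y, ⟨g ^ N, N, rfl⟩), ?_⟩
      apply Subtype.ext
      change x * algebraMap R K (g ^ N) = algebraMap R K y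
      rw [← hy, map_pow, mul_comm]
    · intro x y hxy
      refine ⟨1, ?_⟩
      rw [IsFractionRing.injective R K (congrArg Subtype.val hxy)]
  exact ⟨IsLocalization.Away.lift g (isUnit_iff_ne_zero.mpr hφ), fun y =>
    IsLocalization.Away.lift_eq g (isUnit_iff_ne_zero.mpr hφ) y⟩

lemma isFractionRing_Rg (g : R) : IsFractionRing (Rg R g : Subring K) K := by
  refine ⟨?_, ?_, ?_⟩
  · rintro ⟨y, hy⟩
    refine isUnit_iff_ne_zero.mpr fun h => nonZeroDivisors.ne_zero hy (Subtype.ext h)
  · intro x
    obtain ⟨a, b, hb, rfl⟩ := IsFractionRing.div_surjective (A := R) x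
    have hb0 : b ≠ 0 := nonZeroDivisors.ne_zero hb
    refine ⟨(incl R g a, ⟨incl R g b, mem_nonZeroDivisors_of_ne_zero fun h =>
      alg_ne (K := K) R hb0 (congrArg Subtype.val h)⟩), ?_⟩
    change algebraMap R K a / algebraMap R K b * algebraMap R K b = algebraMap R K a
    rw [div_mul_cancel₀ _ (alg_ne R hb0)]
  · intro x y hxy
    exact ⟨1, by rw [Subtype.ext hxy]⟩

end loc

/-- `y ∈ k` is the reduction of `x ∈ K` under `φ : R → k`: `x = a / b` with `φ b ≠ 0` and
`y = φ a / φ b`. -/
def Red {R K k : Type*} [CommRing R] [Field K] [Algebra R K] [Field k] (φ : R →+* k) (x : K)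
    (y : k) : Prop :=
  ∃ a b : R, φ b ≠ 0 ∧ algebraMap R K b * x = algebraMap R K a ∧ φ b * y = φ a

/-- **From one member to the family.** -/
theorem all_members {R K : Type*} [CommRing R] [IsDomain R] [CharZero R] [Field K] [Algebra R K]
    [IsFractionRing R K] {ι : Type*} [Fintype ι] [DecidableEq ι] {r : Type*} [Fintype r]
    [DecidableEq r] (z c : ι → R) (hz : ∀ i j, i ≠ j → IsUnit (z i - z j))
    (A₀ : ι → Matrix r r R) (A : ι → Matrix r r K⟦X⟧)
    (hA0 : ∀ i, (A i).map (constantCoeff (R := K)) = (A₀ i).map (algebraMap R K))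
    (hA : Schl (fun i => algebraMap R K (z i)) (fun i => algebraMap R K (c i)) A)
    (halg : ∀ i a b, IsAlgebraic (Polynomial R) (A i a b)) :
    ∃ g : R, g ≠ 0 ∧ ∀ (k : Type*) [Field k] (φ : R →+* k), φ g ≠ 0 →
      ∃ B : ι → Matrix r r k⟦X⟧,
        (∀ i a b j, Red φ (coeff j (A i a b)) (coeff j (B i a b))) ∧
        (∀ (H : Polynomial R) (N : ι → Matrix r r (Polynomial R)),
          (∀ i a b, ((H.map (algebraMap R K) : Polynomial K) : K⟦X⟧) * A i a b =
            ((N i a b).map (algebraMap R K) : Polynomial K)) →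
          ∀ i a b, ((H.map φ : Polynomial k) : k⟦X⟧) * B i a b =
            ((N i a b).map φ : Polynomial k)) ∧
        ∀ p : ℕ, p.Prime → (p : k) = 0 → (∀ a b, (p : Polynomial R) ∣ curv A₀ z p a b) →
          curv B (line (fun i => φ (z i)) (fun i => φ (c i))) p = 0 := by
  classical
  have hK : CharZero K := charZero_of_injective_algebraMap (IsFractionRing.injective R K)
  -- Eisenstein
  obtain ⟨g₁, hg₁, hE⟩ := eisenstein (R := R) (fun x : ι × r × r => A x.1 x.2.1 x.2.2)
    (fun x => by
      obtain ⟨P, hP, hPA⟩ := halg x.1 x.2.1 x.2.2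
      refine ⟨P.map (Polynomial.mapRingHom (algebraMap R K)), ?_, ?_⟩
      · exact (Polynomial.map_ne_zero_iff
          (Polynomial.map_injective _ (IsFractionRing.injective R K))).mpr hP
      · rw [Polynomial.aeval_def, Polynomial.eval₂_map]
        rw [Polynomial.aeval_def] at hPA
        rw [← hPA]
        congr 1
        refine RingHom.ext fun q => ?_
        rw [RingHom.comp_apply, PowerSeries.algebraMap_apply', PowerSeries.algebraMap_apply']
        ext n
        simp)
  let O : Subring K := Rg R g₁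
  have hFrac : IsFractionRing O K := isFractionRing_Rg R g₁
  have hOinj : Function.Injective (PowerSeries.map O.subtype) :=
    PowerSeries.map_injective _ Subtype.val_injective
  let A' : ι → Matrix r r O⟦X⟧ := fun i a b => PowerSeries.mk fun n => ⟨coeff n (A i a b),
    hE (i, a, b) n⟩
  have hA' : ∀ i a b, PowerSeries.map O.subtype (A' i a b) = A i a b := by
    intro i a b
    ext n
    rw [coeff_map]
    simp only [A', coeff_mk]
    rfl
  have hA'' : (fun i => (A' i).map (PowerSeries.map (algebraMap O K))) = A := by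
    funext i
    ext1 a b
    exact hA' i a b
  obtain ⟨g', hg', hfam⟩ := family (R := O) (K := K) (fun i => incl R g₁ (z i))
    (fun i => incl R g₁ (c i)) (fun i j hij => by
      rw [← map_sub]
      exact (hz i j hij).map _) A' (by rw [hA'']; exact hA) (fun i a b => by
      obtain ⟨P, hP, hPA⟩ := halg i a b
      have hinc : Function.Injective (incl (K := K) R g₁) := fun x y hxy =>
        IsFractionRing.injective R K (congrArg Subtype.val hxy)
      refine ⟨P.map (Polynomial.mapRingHom (incl R g₁)), ?_, ?_⟩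
      · exact (Polynomial.map_ne_zero_iff (Polynomial.map_injective _ hinc)).mpr hP
      · apply hOinj
        rw [map_zero, ← hPA, Polynomial.aeval_def, Polynomial.aeval_def, Polynomial.eval₂_map,
          Polynomial.hom_eval₂, hA']
        congr 1
        refine RingHom.ext fun q => ?_
        rw [RingHom.comp_apply, RingHom.comp_apply, PowerSeries.algebraMap_apply',
          PowerSeries.algebraMap_apply']
        ext n
        rw [coeff_map, coeff_map, coeff_map, Polynomial.coe_mapRingHom, Polynomial.coeff_coe,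
          Polynomial.coeff_coe, Polynomial.coeff_map]
        rfl)
  -- the denominator of `g'`
  obtain ⟨N', y', hy'⟩ := g'.2
  have hy'0 : y' ≠ 0 := by
    rintro rfl
    rw [map_zero, mul_eq_zero] at hy'
    rcases hy' with h | h
    · exact absurd h (pow_ne_zero _ (alg_ne (K := K) R hg₁))
    · exact hg' (Subtype.ext h)
  refine ⟨g₁ * y', mul_ne_zero hg₁ hy'0, ?_⟩
  intro k _ φ hφ
  rw [map_mul] at hφ
  have hφ1 : φ g₁ ≠ 0 := left_ne_zero_of_mul hφ
  obtain ⟨φ', hφ'⟩ := exists_lift (K := K) R hg₁ φ hφ1
  have hφg' : φ' g' ≠ 0 := by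
    have h1 : incl R g₁ g₁ ^ N' * g' = incl R g₁ y' := Subtype.ext hy'
    have h2 := congrArg φ' h1
    rw [map_mul, map_pow, hφ', hφ'] at h2
    intro h3
    rw [h3, mul_zero] at h2
    exact right_ne_zero_of_mul hφ h2.symm
  refine ⟨fun i => (A' i).map (PowerSeries.map φ'), ?_, ?_, ?_⟩
  · intro i a b j
    change Red φ _ (coeff j (PowerSeries.map φ' (A' i a b)))
    rw [coeff_map]
    obtain ⟨N, y, hy⟩ := (coeff j (A' i a b)).2
    have h0 : ((coeff j (A' i a b) : O) : K) = coeff j (A i a b) := by
      rw [← hA', coeff_map]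
      rfl
    refine ⟨y, g₁ ^ N, by rw [map_pow]; exact pow_ne_zero _ hφ1, ?_, ?_⟩
    · rw [map_pow, ← h0]
      exact hy
    · have h1 : incl R g₁ g₁ ^ N * coeff j (A' i a b) = incl R g₁ y := Subtype.ext hy
      have h2 := congrArg φ' h1
      rwa [map_mul, map_pow, hφ', hφ', ← map_pow] at h2
  · intro H N hN i a b
    have h1 : ((H.map (incl R g₁) : Polynomial O) : O⟦X⟧) * A' i a b =
        ((N i a b).map (incl R g₁) : Polynomial O) := by
      apply hOinj
      rw [map_mul, hA', ← Polynomial.polynomial_map_coe, ← Polynomial.polynomial_map_coe,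
        Polynomial.map_map, Polynomial.map_map]
      exact hN i a b
    have h2 := congrArg (PowerSeries.map φ') h1
    have h3 : φ'.comp (incl R g₁) = φ := RingHom.ext hφ'
    rw [map_mul, ← Polynomial.polynomial_map_coe, ← Polynomial.polynomial_map_coe,
      Polynomial.map_map, Polynomial.map_map, h3] at h2
    exact h2
  · intro p hp hpk h
    have h1 := hfam k φ' hφg' p hp hpk (fun a b => by
      have h2 : (fun i => (A' i).map (PowerSeries.constantCoeff (R := O))) =
          fun i => (A₀ i).map (incl R g₁) := by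
        funext i
        ext1 a b
        apply Subtype.ext
        have h3 := congrFun (congrFun (hA0 i) a) b
        rw [Matrix.map_apply, Matrix.map_apply, ← hA' i a b] at h3
        rw [Matrix.map_apply, Matrix.map_apply]
        rw [← PowerSeries.coeff_zero_eq_constantCoeff_apply, coeff_map,
          PowerSeries.coeff_zero_eq_constantCoeff_apply] at h3
        exact h3
      rw [h2, Pool.Agent.X98.KZ.curv_map, Matrix.map_apply]
      obtain ⟨q, hq⟩ := h a b
      refine ⟨q.map (incl R g₁), ?_⟩
      rw [hq, Polynomial.map_mul, Polynomial.map_natCast])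
    have h4 : (fun i => φ' (incl R g₁ (z i))) = fun i => φ (z i) := funext fun i => hφ' _
    have h5 : (fun i => φ' (incl R g₁ (c i))) = fun i => φ (c i) := funext fun i => hφ' _
    rw [h4, h5] at h1
    exact h1

end Pool.Agent.X319.OM
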