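import Pool.Agent.X319.OM.Alg
import Pool.Agent.X98.SL.PI

set_option autoImplicit false

/-!
# (H) passes from one member to an algebraic isomonodromic family
-/

namespace Pool.Agent.X319.OM

open PowerSeries Pool.Agent.X98.KZ Pool.Agent.X98.SL

/-- The position `a_i = z_i + c_i s` of the `i`-th pole. -/
noncomputable def line {S : Type*} [CommRing S] {ι : Type*} (z c : ι → S) (i : ι) : S⟦X⟧ :=
  PowerSeries.C (z i) + PowerSeries.C (c i) * X

lemma line_map {S S' : Type*} [CommRing S] [CommRing S'] (φ : S →+* S') {ι : Type*} (z c : ι → S)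
    (i : ι) : PowerSeries.map φ (line z c i) = line (fun i => φ (z i)) (fun i => φ (c i)) i := by
  rw [line, line, map_add, map_mul, PowerSeries.map_C, PowerSeries.map_C, PowerSeries.map_X]

lemma zero_of_PZero {R K k : Type*} [CommRing R] [IsDomain R] [Field K] [Algebra R K]
    [IsFractionRing R K] [Field k] (φ : R →+* k) {p : ℕ} (hp : p.Prime) (hpk : (p : k) = 0) {y : R}
    (h : PZero R p (algebraMap R K y)) : φ y = 0 := by
  obtain ⟨m, y', hm, h1⟩ := h
  have h2 : (m : R) * y = p * y' := by
    apply IsFractionRing.injective R K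
    rw [map_mul, map_natCast]
    exact h1
  have h3 := congrArg φ h2
  rw [map_mul, map_mul, map_natCast, map_natCast, hpk, zero_mul] at h3
  refine (mul_eq_zero.mp h3).resolve_left fun h4 => ?_
  have h5 : IsCoprime (m : ℤ) (p : ℤ) :=
    Nat.isCoprime_iff_coprime.mpr ((hp.coprime_iff_not_dvd.mpr hm).symm)
  obtain ⟨u, v, huv⟩ := h5
  have h6 := congrArg (Int.cast : ℤ → k) huv
  push_cast at h6
  rw [h4, hpk, mul_zero, mul_zero, add_zero] at h6
  exact zero_ne_one h6

/-- The main theorem: from one member to the whole family. -/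
theorem family {R K : Type*} [CommRing R] [IsDomain R] [CharZero R] [Field K] [Algebra R K]
    [IsFractionRing R K] {ι : Type*} [Fintype ι] [DecidableEq ι] {r : Type*} [Fintype r]
    [DecidableEq r] (z c : ι → R) (hz : ∀ i j, i ≠ j → IsUnit (z i - z j))
    (A : ι → Matrix r r R⟦X⟧)
    (hA : Schl (fun i => algebraMap R K (z i)) (fun i => algebraMap R K (c i))
      (fun i => (A i).map (PowerSeries.map (algebraMap R K))))
    (halg : ∀ i a b, IsAlgebraic (Polynomial R) (A i a b)) :
    ∃ g : R, g ≠ 0 ∧ ∀ (k : Type*) [Field k] (φ : R →+* k), φ g ≠ 0 → ∀ p : ℕ, p.Prime →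
      (p : k) = 0 → (∀ a b, (p : Polynomial R) ∣
        curv (fun i => (A i).map (PowerSeries.constantCoeff (R := R))) z p a b) →
      curv (fun i => (A i).map (PowerSeries.map φ))
        (line (fun i => φ (z i)) (fun i => φ (c i))) p = 0 := by
  have hK : CharZero K := charZero_of_injective_algebraMap (IsFractionRing.injective R K)
  obtain ⟨α, g, hg, hmult⟩ := mult_estimate A (line z c) (fun i => ⟨z i, c i, rfl⟩) halg
  refine ⟨g * (α.succ.factorial : R), mul_ne_zero hg ?_, ?_⟩
  · exact_mod_cast Nat.factorial_ne_zero _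
  intro k _ φ hφ p hp hpk h
  rw [map_mul, map_natCast] at hφ
  have hφg : φ g ≠ 0 := left_ne_zero_of_mul hφ
  have hpα : α + 1 < p := by
    by_contra hle
    rw [not_lt] at hle
    have h1 : p ∣ α.succ.factorial := (hp.dvd_factorial).mpr hle
    obtain ⟨q, hq⟩ := h1
    apply right_ne_zero_of_mul hφ
    rw [hq]
    push_cast
    rw [hpk, zero_mul]
  obtain ⟨-, hcurv⟩ := at_prime hp z c hz (fun i => (A i).map (PowerSeries.constantCoeff (R := R)))
    h (fun i => (A i).map (PowerSeries.map (algebraMap R K))) (fun i => by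
      ext1 a b
      simp only [Matrix.map_apply]
      rw [← PowerSeries.coeff_zero_eq_constantCoeff_apply, PowerSeries.coeff_map,
        PowerSeries.coeff_zero_eq_constantCoeff_apply]) hA
  -- the coefficients in degrees below `p ^ 2` are zero modulo `p`
  have hlow : ∀ i < p ^ 2, ∀ a b l, φ (coeff i ((curv A (line z c) p a b).coeff l)) = 0 := by
    intro i hi a b l
    refine zero_of_PZero (K := K) φ hp hpk ?_
    have h1 := (hcurv i l a b).of_mul R hp (not_dvd_wt hp hi)
    have h2 : (pos (fun i => algebraMap R K (z i)) (fun i => algebraMap R K (c i))) =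
        fun i => PowerSeries.map (algebraMap R K) (line z c i) := by
      funext i
      rw [line_map]
      rfl
    rw [h2, Pool.Agent.X98.KZ.curv_map, Matrix.map_apply, Polynomial.coeff_map, PowerSeries.coeff_map] at h1
    exact h1
  ext1 a b
  ext1 l
  rw [Matrix.zero_apply, Polynomial.coeff_zero]
  have hline : (line (fun i => φ (z i)) (fun i => φ (c i))) =
      fun i => PowerSeries.map φ (line z c i) := by
    funext i
    rw [line_map]
  rw [hline]
  refine hmult k φ hφg p l a b fun i hi => ?_
  rw [Pool.Agent.X98.KZ.curv_map, Matrix.map_apply, Polynomial.coeff_map, PowerSeries.coeff_map]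
  refine hlow i (lt_of_lt_of_le hi ?_) a b l
  nlinarith [hp.pos]

/-- A member of a rational family. -/
theorem member {k : Type*} [Field k] {ι : Type*} [Fintype ι] [DecidableEq ι] {r : Type*}
    [Fintype r] [DecidableEq r] (z c : ι → k) (A : ι → Matrix r r k⟦X⟧) (p : ℕ)
    (h : curv A (line z c) p = 0) (H : Polynomial k) (N : ι → Matrix r r (Polynomial k))
    (hN : ∀ i a b, (H : k⟦X⟧) * A i a b = (N i a b : Polynomial k)) (t : k) (ht : H.eval t ≠ 0) :
    curv (fun i => (H.eval t)⁻¹ • (N i).map (Polynomial.eval t)) (fun i => z i + c i * t) p = 0 := by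
  classical
  have hH : H ≠ 0 := fun h0 => ht (by rw [h0, Polynomial.eval_zero])
  let S := Localization.Away H
  let L := FractionRing k⟦X⟧
  let ιP : Polynomial k →+* L :=
    (algebraMap k⟦X⟧ L).comp (Polynomial.coeToPowerSeries.ringHom (R := k))
  have hιP : Function.Injective ιP := by
    intro x y hxy
    exact Polynomial.coe_injective k (IsFractionRing.injective k⟦X⟧ L hxy)
  have hHL : IsUnit (ιP H) := by
    rw [isUnit_iff_ne_zero, Ne, ← map_zero ιP]
    exact fun h0 => hH (hιP h0)
  let ψ : S →+* L := IsLocalization.Away.lift H hHL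
  have hψ : ∀ x, ψ (algebraMap _ S x) = ιP x := fun x => IsLocalization.Away.lift_eq H hHL x
  have hHt : IsUnit (Polynomial.evalRingHom t H) := by
    rw [isUnit_iff_ne_zero]
    exact ht
  let ev : S →+* k := IsLocalization.Away.lift (g := Polynomial.evalRingHom t) H hHt
  have hev : ∀ x : Polynomial k, ev (algebraMap _ S x) = x.eval t := fun x =>
    IsLocalization.Away.lift_eq H hHt x
  have hψi : Function.Injective ψ := by
    rw [injective_iff_map_eq_zero]
    intro x hx
    obtain ⟨n, a, ha⟩ := IsLocalization.Away.surj H x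
    have h1 := congrArg ψ ha
    rw [map_mul, hx, zero_mul, hψ] at h1
    have h2 : a = 0 := hιP (by rw [map_zero]; exact h1.symm)
    rw [h2, map_zero] at ha
    exact (IsUnit.mul_left_eq_zero ((IsLocalization.Away.algebraMap_isUnit H).pow n)).mp ha
  -- the family over `S`
  let Hi : S := IsLocalization.Away.invSelf H
  have hHi : algebraMap _ S H * Hi = 1 := IsLocalization.Away.mul_invSelf H
  let AS : ι → Matrix r r S := fun i => (N i).map fun x => algebraMap _ S x * Hi
  let zS : ι → S := fun i => algebraMap _ S (Polynomial.C (z i) + Polynomial.C (c i) * Polynomial.X)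
  have e1 : (fun i => (AS i).map ψ) = fun i => (A i).map (algebraMap k⟦X⟧ L) := by
    funext i
    ext1 a b
    simp only [AS, Matrix.map_apply]
    have h2 := congrArg ψ hHi
    rw [map_mul, hψ, map_one] at h2
    have h3 := congrArg (algebraMap k⟦X⟧ L) (hN i a b)
    rw [map_mul] at h3
    have h4 : algebraMap k⟦X⟧ L (H : k⟦X⟧) = ιP H := rfl
    have h5 : algebraMap k⟦X⟧ L (N i a b : Polynomial k) = ιP (N i a b) := rfl
    rw [h4, h5] at h3
    rw [map_mul, hψ, ← h3]
    calc ιP H * algebraMap k⟦X⟧ L (A i a b) * ψ Hi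
        = (ιP H * ψ Hi) * algebraMap k⟦X⟧ L (A i a b) := by ring
      _ = _ := by rw [h2, one_mul]
  have e2 : (fun i => ψ (zS i)) = fun i => algebraMap k⟦X⟧ L (line z c i) := by
    funext i
    simp only [zS]
    rw [hψ]
    simp only [ιP, line, RingHom.comp_apply, Polynomial.coeToPowerSeries.ringHom_apply,
      Polynomial.coe_add, Polynomial.coe_mul, Polynomial.coe_C, Polynomial.coe_X]
  have h6 : curv AS zS p = 0 := by
    have h7 : (curv AS zS p).map (Polynomial.map ψ) = 0 := by
      rw [← Pool.Agent.X98.KZ.curv_map, e1, e2, Pool.Agent.X98.KZ.curv_map, h]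
      ext1 a b
      simp
    ext1 a b
    have h8 := congrFun (congrFun h7 a) b
    rw [Matrix.map_apply, Matrix.zero_apply, ← Polynomial.map_zero ψ] at h8
    exact Polynomial.map_injective ψ hψi h8
  have e3 : (fun i => (AS i).map ev) = fun i => (H.eval t)⁻¹ • (N i).map (Polynomial.eval t) := by
    funext i
    ext1 a b
    simp only [AS, Matrix.map_apply, Matrix.smul_apply, smul_eq_mul]
    have h2 := congrArg ev hHi
    rw [map_mul, hev, map_one] at h2
    rw [map_mul, hev, mul_comm, eq_comm]
    congr 1
    exact inv_eq_of_mul_eq_one_right h2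
  have e4 : (fun i => ev (zS i)) = fun i => z i + c i * t := by
    funext i
    simp only [zS]
    rw [hev]
    simp
  rw [← e3, ← e4, Pool.Agent.X98.KZ.curv_map, h6]
  ext1 a b
  simp

end Pool.Agent.X319.OM
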